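import Pool.Agent.H31R3.Kes.GUp
import Pool.Agent.W424.NC.ArmUp

/-!
Bond percolation on `ℤ²`: the sharp upper bound for the mean cluster size below the critical point.
-/

set_option autoImplicit false
set_option maxHeartbeats 1000000

namespace Pool.Agent.U167.NS

open H974 H31K Finset MeasureTheory

/-- `∑ (r+1)^a exp(-b(r+1)) ≤ 4 b^(-a-1)` for `0 ≤ a ≤ 1`. -/
theorem geo_sum {a b : ℝ} (ha0 : 0 ≤ a) (ha1 : a ≤ 1) (hb : 0 < b) (M : ℕ) :
    ∑ r ∈ Finset.range M, ((r:ℝ) + 1) ^ a * Real.exp (-(b * ((r:ℝ) + 1))) ≤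
      4 * b ^ (-a - 1) := by
  have h1 : ∀ r ∈ Finset.range M, ((r:ℝ) + 1) ^ a * Real.exp (-(b * ((r:ℝ) + 1))) ≤
      b ^ (-a) * (2 * (Real.exp (-(b / 2))) ^ (r + 1)) := by
    intro r _
    obtain ⟨m, hm⟩ : ∃ m : ℝ, m = (r:ℝ) + 1 := ⟨_, rfl⟩
    have hm0 : 0 < m := by rw [hm]; positivity
    rw [← hm]
    have e1 : m ^ a = b ^ (-a) * (b * m) ^ a := by
      rw [Real.mul_rpow hb.le hm0.le, Real.rpow_neg hb.le]
      have := (Real.rpow_pos_of_pos hb a).ne'
      field_simp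
    have e2 : (b * m) ^ a ≤ 1 + b * m := by
      have hbm : 0 < b * m := by positivity
      rcases le_total (b * m) 1 with h | h
      · have := Real.rpow_le_one hbm.le h ha0
        linarith
      · have := Real.rpow_le_rpow_of_exponent_le h ha1
        rw [Real.rpow_one] at this
        linarith
    have e3 : (1 + b * m) * Real.exp (-(b * m)) ≤ 2 * Real.exp (-(b * m / 2)) := by
      have h4 := Real.add_one_le_exp (b * m / 2)
      have h5 : Real.exp (-(b * m)) = Real.exp (-(b * m / 2)) * Real.exp (-(b * m / 2)) := by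
        rw [← Real.exp_add]; congr 1; ring
      have h6 : Real.exp (b * m / 2) * Real.exp (-(b * m / 2)) = 1 := by
        rw [← Real.exp_add, add_neg_cancel, Real.exp_zero]
      have h7 := Real.exp_pos (-(b * m / 2))
      have h8 : (1 + b * m) ≤ 2 * Real.exp (b * m / 2) := by nlinarith [mul_pos hb hm0]
      calc (1 + b * m) * Real.exp (-(b * m)) ≤
          (2 * Real.exp (b * m / 2)) * Real.exp (-(b * m)) :=
            mul_le_mul_of_nonneg_right h8 (Real.exp_pos _).le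
        _ = 2 * (Real.exp (b * m / 2) * Real.exp (-(b * m / 2))) * Real.exp (-(b * m / 2)) := by
            rw [h5]; ring
        _ = _ := by rw [h6]; ring
    have e4 : (Real.exp (-(b / 2))) ^ (r + 1) = Real.exp (-(b * m / 2)) := by
      rw [← Real.exp_nat_mul, hm]
      congr 1
      push_cast
      ring
    rw [e4, e1, mul_assoc]
    apply mul_le_mul_of_nonneg_left _ (Real.rpow_nonneg hb.le _)
    exact (mul_le_mul_of_nonneg_right e2 (Real.exp_pos _).le).trans e3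
  refine (Finset.sum_le_sum h1).trans ?_
  rw [← Finset.mul_sum, ← Finset.mul_sum]
  obtain ⟨x, hx⟩ : ∃ x : ℝ, x = Real.exp (-(b / 2)) := ⟨_, rfl⟩
  rw [← hx]
  have hx0 : 0 < x := by rw [hx]; exact Real.exp_pos _
  have hx1 : x < 1 := by
    rw [hx, Real.exp_lt_one_iff]
    linarith
  have h2 : ∑ r ∈ Finset.range M, x ^ (r + 1) ≤ x / (1 - x) := by
    have h3 : ∑ r ∈ Finset.range M, x ^ (r + 1) = x * ∑ r ∈ Finset.range M, x ^ r := by
      rw [Finset.mul_sum]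
      apply Finset.sum_congr rfl
      intro r _
      rw [pow_succ]; ring
    rw [h3, div_eq_mul_inv]
    apply mul_le_mul_of_nonneg_left _ hx0.le
    rw [geom_sum_eq hx1.ne, ← neg_div_neg_eq, div_eq_mul_inv, neg_sub, neg_sub]
    have : 0 < (1 - x)⁻¹ := inv_pos.2 (by linarith)
    nlinarith [pow_pos hx0 M]
  have h3 : x / (1 - x) ≤ 2 / b := by
    rw [div_le_div_iff₀ (by linarith) hb]
    have h4 := Real.add_one_le_exp (b / 2)
    have h5 : Real.exp (b / 2) * x = 1 := by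
      rw [hx, ← Real.exp_add, add_neg_cancel, Real.exp_zero]
    nlinarith
  have h4 : b ^ (-a - 1) = b ^ (-a) * b⁻¹ := by
    rw [sub_eq_add_neg, Real.rpow_add hb, Real.rpow_neg_one]
  rw [h4]
  have h5 : 0 < b ^ (-a) := Real.rpow_pos_of_pos hb _
  calc b ^ (-a) * (2 * ∑ r ∈ Finset.range M, x ^ (r + 1)) ≤ b ^ (-a) * (2 * (2 / b)) := by
        apply mul_le_mul_of_nonneg_left _ h5.le
        linarith
    _ = _ := by rw [div_eq_mul_inv]; ring

/-- Sharp bound for the two-point function below the critical point. -/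
theorem tau_le_sharp : ∃ c C : ℝ, 0 < c ∧ 0 < C ∧ ∀ p : unitInterval, (p:ℝ) ≤ 1/2 → ∀ x : Vtx,
    tau p x ≤ C * ((((max x.1.natAbs x.2.natAbs : ℕ) : ℝ) + 1) ^ (-(5/24) : ℝ) *
      Real.exp (-(c * ((1/2 - (p:ℝ)) ^ (4/3 : ℝ) *
        (((max x.1.natAbs x.2.natAbs : ℕ) : ℝ) + 1))))) := by
  obtain ⟨c, C, hc, hC, harm⟩ := Pool.Agent.W424.NC.arm_upper
  refine ⟨c / 4, 8 * C ^ 2 + 3 * Real.exp (3 * (c / 4)), by positivity, by positivity, ?_⟩
  intro p hp x
  set r := max x.1.natAbs x.2.natAbs with hr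
  have hp0 : (0:ℝ) ≤ p := p.2.1
  obtain ⟨t, ht⟩ : ∃ t : ℝ, t = (1/2 - (p:ℝ)) ^ (4/3 : ℝ) := ⟨_, rfl⟩
  have ht0 : 0 ≤ t := by rw [ht]; exact Real.rpow_nonneg (by linarith) _
  have ht1 : t ≤ 1 := by rw [ht]; exact Real.rpow_le_one (by linarith) (by linarith) (by norm_num)
  rw [← ht]
  have hr0 : (0:ℝ) < (r:ℝ) + 1 := by positivity
  have hpw : 0 < ((r:ℝ) + 1) ^ (-(5/24) : ℝ) := Real.rpow_pos_of_pos hr0 _
  have hex : 0 < Real.exp (-(c / 4 * (t * ((r:ℝ) + 1)))) := Real.exp_pos _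
  by_cases h3 : r ≤ 2
  · have h5 : (r:ℝ) + 1 ≤ 3 := by
      have : (r:ℝ) ≤ 2 := by exact_mod_cast h3
      linarith
    have h4 : (1:ℝ)/3 ≤ ((r:ℝ) + 1)^(-(5/24) : ℝ) := by
      calc (1:ℝ)/3 = (3:ℝ)^(-1:ℝ) := by rw [Real.rpow_neg_one]; norm_num
        _ ≤ (3:ℝ)^(-(5/24) : ℝ) :=
            Real.rpow_le_rpow_of_exponent_le (by norm_num) (by norm_num)
        _ ≤ ((r:ℝ) + 1)^(-(5/24) : ℝ) :=
            Real.rpow_le_rpow_of_nonpos hr0 h5 (by norm_num)
    have h6 : Real.exp (-(3 * (c / 4))) ≤ Real.exp (-(c / 4 * (t * ((r:ℝ) + 1)))) := by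
      apply Real.exp_le_exp.2
      have : t * ((r:ℝ) + 1) ≤ 1 * 3 := mul_le_mul ht1 h5 hr0.le (by norm_num)
      have h7 := mul_le_mul_of_nonneg_left this (by positivity : 0 ≤ c / 4)
      linarith
    have h8 : Real.exp (3 * (c / 4)) * Real.exp (-(3 * (c / 4))) = 1 := by
      rw [← Real.exp_add, add_neg_cancel, Real.exp_zero]
    have h9 := Real.exp_pos (3 * (c / 4))
    have h10 := Real.exp_pos (-(3 * (c / 4)))
    calc tau p x ≤ 1 := tau_le_one p x
      _ = 3 * Real.exp (3 * (c / 4)) * ((1/3) * Real.exp (-(3 * (c / 4)))) := by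
          have : 3 * Real.exp (3 * (c / 4)) * ((1/3) * Real.exp (-(3 * (c / 4)))) =
            Real.exp (3 * (c / 4)) * Real.exp (-(3 * (c / 4))) := by ring
          rw [this, h8]
      _ ≤ (8 * C ^ 2 + 3 * Real.exp (3 * (c / 4))) * ((1/3) * Real.exp (-(3 * (c / 4)))) := by
          apply mul_le_mul_of_nonneg_right _ (by positivity)
          nlinarith [sq_nonneg C]
      _ ≤ _ := by
          apply mul_le_mul_of_nonneg_left _ (by positivity)
          exact mul_le_mul h4 h6 h10.le hpw.le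
  · have h8 : 1 ≤ (r-1)/2 := by omega
    have h9 : r + 1 ≤ 8 * ((r-1)/2) := by omega
    have h10 : 2 * (((r-1)/2 : ℕ):ℤ) < |x.1| ∨ 2 * (((r-1)/2 : ℕ):ℤ) < |x.2| := by
      have : r = x.1.natAbs ∨ r = x.2.natAbs := by
        rcases max_choice x.1.natAbs x.2.natAbs with h | h
        · left; rw [hr, h]
        · right; rw [hr, h]
      rw [Int.abs_eq_natAbs, Int.abs_eq_natAbs]
      rcases this with h | h
      · left; omega
      · right; omega
    have h11 := tau_le_arm_sq p h10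
    set m := (r-1)/2 with hm
    have hm0 : (0:ℝ) < m := by exact_mod_cast (by omega : 0 < m)
    have h12 := harm p hp0 hp m h8
    rw [← ht] at h12
    have hm8 : ((r:ℝ) + 1) / 8 ≤ m := by
      have : ((r + 1 : ℕ):ℝ) ≤ ((8 * m : ℕ) : ℝ) := by exact_mod_cast h9
      push_cast at this
      linarith
    have h13 : (arm p m)^2 ≤ (C * (m:ℝ) ^ (-(5/48) : ℝ) * Real.exp (-(c * (m * t))))^2 :=
      pow_le_pow_left₀ (arm_nonneg hp0 (by linarith) m) h12 2
    have h14 : (C * (m:ℝ) ^ (-(5/48) : ℝ) * Real.exp (-(c * (m * t))))^2 =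
        C^2 * ((m:ℝ)^(-(5/24) : ℝ) * Real.exp (-(2 * c * (m * t)))) := by
      have e1 : ((m:ℝ) ^ (-(5/48) : ℝ))^2 = (m:ℝ)^(-(5/24) : ℝ) := by
        rw [← Real.rpow_natCast ((m:ℝ)^(-(5/48) : ℝ)), ← Real.rpow_mul hm0.le]
        congr 1
        push_cast
        ring
      have e2 : (Real.exp (-(c * (m * t))))^2 = Real.exp (-(2 * c * (m * t))) := by
        rw [← Real.exp_nat_mul]
        congr 1
        push_cast
        ring
      rw [mul_pow, mul_pow, e1, e2, mul_assoc]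
    have h15 : (m:ℝ)^(-(5/24) : ℝ) ≤ (((r:ℝ)+1)/8)^(-(5/24) : ℝ) :=
      Real.rpow_le_rpow_of_nonpos (by positivity) hm8 (by norm_num)
    have h16 : (((r:ℝ)+1)/8)^(-(5/24) : ℝ) ≤ 8 * ((r:ℝ)+1)^(-(5/24) : ℝ) := by
      rw [Real.div_rpow hr0.le (by norm_num)]
      rw [div_eq_mul_inv, mul_comm]
      apply mul_le_mul_of_nonneg_right _ (by positivity)
      rw [← Real.rpow_neg (by norm_num), neg_neg]
      calc (8:ℝ)^(5/24 : ℝ) ≤ (8:ℝ)^(1:ℝ) :=
            Real.rpow_le_rpow_of_exponent_le (by norm_num) (by norm_num)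
        _ = 8 := Real.rpow_one _
    have h17 : Real.exp (-(2 * c * (m * t))) ≤ Real.exp (-(c / 4 * (t * ((r:ℝ) + 1)))) := by
      apply Real.exp_le_exp.2
      have h18 : ((r:ℝ) + 1) / 8 * t ≤ m * t := mul_le_mul_of_nonneg_right hm8 ht0
      have h19 := mul_le_mul_of_nonneg_left h18 (by positivity : 0 ≤ 2 * c)
      nlinarith
    calc tau p x ≤ (arm p m)^2 := h11
      _ ≤ C^2 * ((m:ℝ)^(-(5/24) : ℝ) * Real.exp (-(2 * c * (m * t)))) := h13.trans h14.le
      _ ≤ C^2 * ((8 * ((r:ℝ)+1)^(-(5/24) : ℝ)) * Real.exp (-(c / 4 * (t * ((r:ℝ) + 1))))) := by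
          apply mul_le_mul_of_nonneg_left _ (by positivity)
          exact mul_le_mul (h15.trans h16) h17 (Real.exp_pos _).le (by positivity)
      _ = 8 * C^2 * (((r:ℝ)+1)^(-(5/24) : ℝ) * Real.exp (-(c / 4 * (t * ((r:ℝ) + 1))))) := by ring
      _ ≤ _ := by
          apply mul_le_mul_of_nonneg_right _ (by positivity)
          have := Real.exp_pos (3 * (c / 4))
          linarith

/-- Sharp upper bound for the mean cluster size below the critical point. -/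
theorem sigma_upper : ∃ C : ℝ, 0 < C ∧ ∀ p : unitInterval, (p : ℝ) < 1/2 →
    sigma p ≤ ENNReal.ofReal (C * (1/2 - (p:ℝ))^(-(43/18) : ℝ)) := by
  obtain ⟨c, C, hc, hC, htau⟩ := tau_le_sharp
  refine ⟨8 * C * (4 * c ^ (-(19/24) - 1 : ℝ)), by positivity, ?_⟩
  intro p hp
  obtain ⟨t, ht⟩ : ∃ t : ℝ, t = (1/2 - (p:ℝ)) ^ (4/3 : ℝ) := ⟨_, rfl⟩
  have hs : 0 < 1/2 - (p:ℝ) := by linarith
  have ht0 : 0 < t := by rw [ht]; exact Real.rpow_pos_of_pos hs _
  have hf0 : ∀ r : ℕ, 0 ≤ C * (((r:ℝ) + 1) ^ (-(5/24) : ℝ) *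
      Real.exp (-(c * (t * ((r:ℝ) + 1))))) := fun r => by positivity
  have h1 := sigma_le_shell p (f := fun r : ℕ => C * (((r:ℝ) + 1) ^ (-(5/24) : ℝ) *
      Real.exp (-(c * (t * ((r:ℝ) + 1)))))) hf0 (fun x => by rw [ht]; exact htau p hp.le x)
  refine h1.trans ?_
  rw [ENNReal.tsum_eq_iSup_nat]
  apply iSup_le
  intro M
  rw [← ENNReal.ofReal_sum_of_nonneg (fun r _ => mul_nonneg (by positivity) (hf0 r))]
  apply ENNReal.ofReal_le_ofReal
  have h2 : ∑ r ∈ range M, 8 * ((r:ℝ) + 1) * (C * (((r:ℝ) + 1) ^ (-(5/24) : ℝ) *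
      Real.exp (-(c * (t * ((r:ℝ) + 1)))))) =
      8 * C * ∑ r ∈ range M, ((r:ℝ) + 1) ^ (19/24 : ℝ) *
        Real.exp (-(c * t * ((r:ℝ) + 1))) := by
    rw [Finset.mul_sum]
    apply Finset.sum_congr rfl
    intro r _
    have hr0 : (0:ℝ) < (r:ℝ) + 1 := by positivity
    have e1 : ((r:ℝ) + 1) ^ (19/24 : ℝ) = ((r:ℝ) + 1) * ((r:ℝ) + 1) ^ (-(5/24) : ℝ) := by
      have : (19/24 : ℝ) = 1 + (-(5/24)) := by norm_num
      rw [this, Real.rpow_add hr0, Real.rpow_one]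
    rw [e1, mul_assoc c t]
    ring
  rw [h2]
  have h3 := geo_sum (a := 19/24) (b := c * t) (by norm_num) (by norm_num) (by positivity) M
  have h4 : (c * t) ^ (-(19/24) - 1 : ℝ) = c ^ (-(19/24) - 1 : ℝ) *
      (1/2 - (p:ℝ)) ^ (-(43/18) : ℝ) := by
    rw [Real.mul_rpow hc.le ht0.le, ht, ← Real.rpow_mul hs.le]
    norm_num
  rw [h4] at h3
  calc 8 * C * ∑ r ∈ range M, ((r:ℝ) + 1) ^ (19/24 : ℝ) *
        Real.exp (-(c * t * ((r:ℝ) + 1))) ≤
        8 * C * (4 * (c ^ (-(19/24) - 1 : ℝ) * (1/2 - (p:ℝ)) ^ (-(43/18) : ℝ))) :=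
        mul_le_mul_of_nonneg_left h3 (by positivity)
    _ = _ := by ring

end Pool.Agent.U167.NS
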